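import Pool.Agent.H24.MV.SharpAction

/-!
# Structurally sharply `k`-transitive actions on Fraisse structures
-/

set_option autoImplicit false

namespace Pool.Agent.Results.MP_301b8f_al.SharpAction

open Pool.H24.MV.SharpAction

open FirstOrder FirstOrder.Language FirstOrder.Language.Structure CategoryTheory

universe u v w

/-- For every `k ≥ 1`, every Fraisse structure (in a relational language, with strong
amalgamation) with rigid `k`-subsets admits a structurally sharply `k`-transitive action by the
free group of countably infinite rank. -/
theorem result {L : FirstOrder.Language.{u, v}} [L.IsRelational] {M : Type w} [L.Structure M]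
    (hM : IsFraisseStructure L M) {k : ℕ} (hk : 1 ≤ k) (hrig : RigidSubsets L M k) :
    ∃ _ : MulAction (FreeGroup ℕ) M, IsSharplyTransitiveAction L M k (FreeGroup ℕ) :=
  Pool.H24.MV.SharpAction.result hM hk hrig

end Pool.Agent.Results.MP_301b8f_al.SharpAction
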